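import Mathlib

/-!
# MP_cb2a9f_co: self-dual minor-closed classes containing all independence spaces

For every infinite set `S` the finitary and the cofinitary B-matroids together form an admissible
system which contains all independence spaces but misses a B-matroid on `S`.
-/

namespace Pool.Agent.Results.MP_cb2a9f_co.NotAllBMatroids

open Set
open scoped Matroid

universe u

variable {S : Type u}

/-- `(W, I)` is a pre-independence space. -/
structure IsPreIndep (W : Set S) (I : Set (Set S)) : Prop where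
  sub : ∀ X ∈ I, X ⊆ W
  empty : ∅ ∈ I
  down : ∀ X ∈ I, ∀ Y, Y ⊆ X → Y ∈ I
  aug : ∀ I₁ ∈ I, ∀ I₂ ∈ I, I₁.Finite → I₂.Finite → I₁.ncard < I₂.ncard →
    ∃ e ∈ I₂ \ I₁, I₁ ∪ {e} ∈ I

/-- `(W, I)` is an independence space. -/
structure IsIndepSpace (W : Set S) (I : Set (Set S)) : Prop extends IsPreIndep W I where
  compact : ∀ Y, Y ⊆ W → (∀ X, X ⊆ Y → X.Finite → X ∈ I) → Y ∈ I

/-- The set of the maximal members of `{Y ∈ I : Y ⊆ X}`. -/
def maxIn (I : Set (Set S)) (X : Set S) : Set (Set S) :=
  {B | Maximal (fun Y => Y ∈ I ∧ Y ⊆ X) B}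

/-- `(W, I)` is a B-matroid. -/
structure IsBMatroid (W : Set S) (I : Set (Set S)) : Prop where
  sub : ∀ X ∈ I, X ⊆ W
  empty : ∅ ∈ I
  down : ∀ X ∈ I, ∀ Y, Y ⊆ X → Y ∈ I
  IB1 : ∀ X, X ⊆ W → ∀ T ∈ I, T ⊆ X → ∃ B ∈ maxIn I X, T ⊆ B
  IB2 : ∀ X, X ⊆ W → ∀ B₁ ∈ maxIn I X, ∀ B₂ ∈ maxIn I X, ∀ x ∈ B₁ \ B₂,
    ∃ y ∈ B₂ \ B₁, (B₁ \ {x}) ∪ {y} ∈ maxIn I X

/-- A basis: a maximal member. -/
def IsBasis (I : Set (Set S)) (B : Set S) : Prop := Maximal (fun Y => Y ∈ I) B

/-- The restriction `I | Z`. -/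
def restr (I : Set (Set S)) (Z : Set S) : Set (Set S) := {Y | Y ⊆ Z ∧ Y ∈ I}

/-- The contraction `I . Z`, computed with the basis `B` of `I | (W \ Z)`. -/
def contr (I : Set (Set S)) (Z B : Set S) : Set (Set S) := {Y | Y ⊆ Z ∧ Y ∪ B ∈ I}

/-- The dual `I*` (with respect to the ground set `W`). -/
def dual (I : Set (Set S)) (W : Set S) : Set (Set S) :=
  {X | X ⊆ W ∧ ∃ B, IsBasis I B ∧ B ⊆ W \ X}

/-- Admissible systems of pre-independence spaces on the subsets of `S`. -/
structure IsAdmissible (D : Set S → Set (Set (Set S))) : Prop where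
  pre : ∀ W, ∀ I ∈ D W, IsPreIndep W I
  restr_mem : ∀ W Z, Z ⊆ W → ∀ I ∈ D W, restr I Z ∈ D Z
  exists_basis : ∀ W Z, Z ⊆ W → ∀ I ∈ D W, ∃ B, IsBasis (restr I (W \ Z)) B
  contr_eq : ∀ W Z, Z ⊆ W → ∀ I ∈ D W, ∀ B B', IsBasis (restr I (W \ Z)) B →
    IsBasis (restr I (W \ Z)) B' → contr I Z B = contr I Z B'
  contr_mem : ∀ W Z, Z ⊆ W → ∀ I ∈ D W, ∀ B, IsBasis (restr I (W \ Z)) B → contr I Z B ∈ D Z
  dual_mem : ∀ W, ∀ I ∈ D W, dual I W ∈ D W
  dual_dual : ∀ W, ∀ I ∈ D W, dual (dual I W) W = I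

/-! ### Translation to Mathlib's matroids -/

/-- The family of independent sets of a matroid. -/
def fam (M : Matroid S) : Set (Set S) := {X | M.Indep X}

/-- The system of the finitary and the cofinitary matroids. -/
def system (S : Type u) : Set S → Set (Set (Set S)) := fun W =>
  {I | ∃ M : Matroid S, M.E = W ∧ (M.Finitary ∨ M✶.Finitary) ∧ I = fam M}

theorem isBasis_fam (M : Matroid S) (B : Set S) : IsBasis (fam M) B ↔ M.IsBase B := by
  rw [Matroid.isBase_iff_maximal_indep]; rfl

theorem restr_fam (M : Matroid S) (Z : Set S) : restr (fam M) Z = fam (M ↾ Z) := by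
  ext Y
  simp only [restr, fam, Set.mem_ofPred_eq, Matroid.restrict_indep_iff]
  tauto

theorem mem_maxIn_fam (M : Matroid S) {X B : Set S} :
    B ∈ maxIn (fam M) X ↔ (M ↾ X).IsBase B := by
  rw [Matroid.isBase_iff_maximal_indep]
  simp only [maxIn, fam, Set.mem_ofPred_eq]
  constructor
  · intro h
    refine ⟨?_, ?_⟩
    · exact Matroid.restrict_indep_iff.2 h.prop
    · intro Y hY hBY
      exact h.2 (Matroid.restrict_indep_iff.1 hY) hBY
  · intro h
    refine ⟨Matroid.restrict_indep_iff.1 h.prop, ?_⟩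
    intro Y hY hBY
    exact h.2 (Matroid.restrict_indep_iff.2 hY) hBY

theorem isBMatroid_fam (M : Matroid S) : IsBMatroid M.E (fam M) where
  sub := fun X hX => hX.subset_ground
  empty := M.empty_indep
  down := fun X hX Y hY => hX.subset hY
  IB1 := by
    intro X hX T hT hTX
    have h1 : (M ↾ X).Indep T := Matroid.restrict_indep_iff.2 ⟨hT, hTX⟩
    obtain ⟨B, hB, hTB⟩ := h1.exists_isBase_superset
    exact ⟨B, (mem_maxIn_fam M).2 hB, hTB⟩
  IB2 := by
    intro X hX B₁ hB₁ B₂ hB₂ x hx
    have h1 := (mem_maxIn_fam M).1 hB₁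
    have h2 := (mem_maxIn_fam M).1 hB₂
    obtain ⟨y, hy, hy'⟩ := h1.exchange h2 hx
    refine ⟨y, hy, (mem_maxIn_fam M).2 ?_⟩
    rwa [Set.union_singleton]

theorem isPreIndep_fam (M : Matroid S) : IsPreIndep M.E (fam M) where
  sub := fun X hX => hX.subset_ground
  empty := M.empty_indep
  down := fun X hX Y hY => hX.subset hY
  aug := by
    intro I₁ h₁ I₂ h₂ hf₁ hf₂ hlt
    have hlt' : I₁.encard < I₂.encard := by
      rw [← hf₁.cast_ncard_eq, ← hf₂.cast_ncard_eq]
      exact_mod_cast hlt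
    obtain ⟨e, he, he'⟩ := Matroid.Indep.augment h₁ h₂ hlt'
    refine ⟨e, he, ?_⟩
    rw [Set.union_singleton]
    exact he'

theorem contr_fam (M : Matroid S) {Z B : Set S}
    (hB : IsBasis (restr (fam M) (M.E \ Z)) B) :
    contr (fam M) Z B = fam (M ／ (M.E \ Z)) := by
  rw [restr_fam, isBasis_fam] at hB
  have hB' : M.IsBasis B (M.E \ Z) := (Matroid.isBase_restrict_iff (Set.sdiff_subset)).1 hB
  ext Y
  simp only [contr, fam, Set.mem_ofPred_eq]
  rw [hB'.contract_indep_iff]
  constructor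
  · rintro ⟨h1, h2⟩
    exact ⟨h2, Set.disjoint_left.2 fun e he he' => he.2 (h1 he')⟩
  · rintro ⟨h1, h2⟩
    refine ⟨?_, h1⟩
    intro e he
    by_contra hZe
    exact Set.disjoint_left.1 h2 ⟨h1.subset_ground (Or.inl he), hZe⟩ he

theorem dual_fam (M : Matroid S) : dual (fam M) M.E = fam M✶ := by
  ext X
  simp only [dual, fam, Set.mem_ofPred_eq]
  rw [Matroid.dual_indep_iff_exists']
  refine and_congr_right fun hX => ?_
  constructor
  · rintro ⟨B, hB, hB'⟩
    refine ⟨B, (isBasis_fam M B).1 hB, ?_⟩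
    exact Set.disjoint_left.2 fun e he he' => (hB' he').2 he
  · rintro ⟨B, hB, hB'⟩
    refine ⟨B, (isBasis_fam M B).2 hB, fun e he => ⟨hB.subset_ground he, fun he' => ?_⟩⟩
    exact Set.disjoint_left.1 hB' he' he

theorem isAdmissible_system : IsAdmissible (system S) where
  pre := by
    rintro W I ⟨M, rfl, hM, rfl⟩
    exact isPreIndep_fam M
  restr_mem := by
    rintro W Z hZ I ⟨M, rfl, hM, rfl⟩
    refine ⟨M ↾ Z, rfl, ?_, restr_fam M Z⟩
    have hdel : M ＼ (M.E \ Z) = M ↾ Z := by
      rw [Matroid.delete_eq_restrict]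
      congr 1
      exact Set.sdiff_sdiff_cancel_left hZ
    rw [← hdel]
    rcases hM with hM | hM
    · exact Or.inl inferInstance
    · right
      rw [Matroid.dual_delete]
      infer_instance
  exists_basis := by
    rintro W Z hZ I ⟨M, rfl, hM, rfl⟩
    obtain ⟨B, hB⟩ := (M ↾ (M.E \ Z)).exists_isBase
    refine ⟨B, ?_⟩
    rw [restr_fam, isBasis_fam]
    exact hB
  contr_eq := by
    rintro W Z hZ I ⟨M, rfl, hM, rfl⟩ B B' hB hB'
    rw [contr_fam M hB, contr_fam M hB']
  contr_mem := by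
    rintro W Z hZ I ⟨M, rfl, hM, rfl⟩ B hB
    refine ⟨M ／ (M.E \ Z), ?_, ?_, contr_fam M hB⟩
    · rw [Matroid.contract_ground]
      exact Set.sdiff_sdiff_cancel_left hZ
    · rcases hM with hM | hM
      · exact Or.inl inferInstance
      · right
        rw [Matroid.dual_contract]
        infer_instance
  dual_mem := by
    rintro W I ⟨M, rfl, hM, rfl⟩
    refine ⟨M✶, rfl, ?_, dual_fam M⟩
    rw [Matroid.dual_dual]
    exact hM.symm
  dual_dual := by
    rintro W I ⟨M, rfl, hM, rfl⟩
    rw [dual_fam]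
    have := dual_fam M✶
    rw [Matroid.dual_ground, Matroid.dual_dual] at this
    exact this

theorem mem_system_of_isIndepSpace {W : Set S} {I : Set (Set S)} (h : IsIndepSpace W I) :
    I ∈ system S W := by
  let N : IndepMatroid S := IndepMatroid.ofFinitaryCardAugment W (fun X => X ∈ I)
    h.empty (fun X Y hY hXY => h.down Y hY X hXY)
    (by
      intro X Y hX hXf hY hYf hlt
      obtain ⟨e, he, he'⟩ := h.aug X hX Y hY hXf hYf hlt
      rw [Set.union_singleton] at he'
      exact ⟨e, he.1, he.2, he'⟩)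
    (by
      intro X hX
      refine h.compact X ?_ hX
      intro e he
      exact h.sub {e} (hX {e} (Set.singleton_subset_iff.2 he) (Set.finite_singleton e)) rfl)
    (fun X hX => h.sub X hX)
  refine ⟨N.matroid, rfl, Or.inl ?_, ?_⟩
  · exact IndepMatroid.ofFinitaryCardAugment_finitary _ _ _ _ _ _ _
  · rfl

/-! ### A B-matroid on `S` that is neither finitary nor cofinitary -/

/-- The rank-one uniform matroid on `A`. -/
def unifOne (A : Set S) : Matroid S :=
  (IndepMatroid.ofFinitaryCardAugment A (fun X => X ⊆ A ∧ X.Subsingleton)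
    ⟨Set.empty_subset _, Set.subsingleton_empty⟩
    (fun X Y hY hXY => ⟨hXY.trans hY.1, hY.2.anti hXY⟩)
    (by
      rintro X Y ⟨hXA, hX⟩ hXf ⟨hYA, hY⟩ hYf hlt
      have hY1 : Y.ncard ≤ 1 := by
        rcases hY.eq_empty_or_singleton with h | ⟨a, h⟩ <;> simp [h]
      have hX0 : X = ∅ := by
        rw [← Set.ncard_eq_zero hXf]; omega
      subst hX0
      have hYne : Y.Nonempty := by
        rw [← Set.ncard_pos hYf]; simpa using hlt
      obtain ⟨e, he⟩ := hYne
      refine ⟨e, he, by simp, ?_, ?_⟩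
      · simpa using hYA he
      · simp)
    (by
      intro X hX
      refine ⟨fun e he => ?_, fun a ha b hb => ?_⟩
      · exact (hX {e} (by simpa using he) (Set.finite_singleton e)).1 rfl
      · exact (hX {a, b} (by rintro c (rfl | rfl); exacts [ha, hb])
          ((Set.finite_singleton b).insert a)).2 (by simp) (by simp))
    (fun X hX => hX.1)).matroid

theorem unifOne_indep {A X : Set S} : (unifOne A).Indep X ↔ X ⊆ A ∧ X.Subsingleton := Iff.rfl

theorem unifOne_ground (A : Set S) : (unifOne A).E = A := rfl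

theorem unifOne_isBase {A X : Set S} (hA : A.Nonempty) :
    (unifOne A).IsBase X ↔ ∃ a ∈ A, X = {a} := by
  rw [Matroid.isBase_iff_maximal_indep]
  constructor
  · intro h
    have hX := unifOne_indep.1 h.prop
    rcases hX.2.eq_empty_or_singleton with h0 | ⟨a, ha⟩
    · obtain ⟨a, ha⟩ := hA
      have h1 : (unifOne A).Indep {a} := unifOne_indep.2 ⟨by simpa using ha, by simp⟩
      have h2 := h.2 h1 (by simp [h0])
      subst h0
      exact absurd (h2 rfl) (by simp)
    · exact ⟨a, hX.1 (by simp [ha]), ha⟩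
  · rintro ⟨a, ha, rfl⟩
    refine ⟨unifOne_indep.2 ⟨by simpa using ha, by simp⟩, ?_⟩
    intro Y hY haY b hb
    exact (unifOne_indep.1 hY).2 hb (haY rfl)

theorem unifOne_dual_indep {A X : Set S} (hA : A.Nonempty) :
    (unifOne A)✶.Indep X ↔ X ⊆ A ∧ ∃ a ∈ A, a ∉ X := by
  rw [Matroid.dual_indep_iff_exists', unifOne_ground]
  refine and_congr_right fun _ => ?_
  constructor
  · rintro ⟨B, hB, hXB⟩
    obtain ⟨a, ha, rfl⟩ := (unifOne_isBase hA).1 hB
    exact ⟨a, ha, fun h => Set.disjoint_left.1 hXB h rfl⟩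
  · rintro ⟨a, ha, haX⟩
    exact ⟨{a}, (unifOne_isBase hA).2 ⟨a, ha, rfl⟩, by simpa using haX⟩

theorem not_finitary_dual_unifOne {A : Set S} (hA : A.Infinite) : ¬ (unifOne A)✶.Finitary := by
  intro h
  have h1 : (unifOne A)✶.Indep A := by
    refine Matroid.indep_of_forall_finite_subset_indep A fun J hJ hJf => ?_
    rw [unifOne_dual_indep hA.nonempty]
    refine ⟨hJ, ?_⟩
    by_contra hcon
    push Not at hcon
    exact hA (hJf.subset hcon)
  rw [unifOne_dual_indep hA.nonempty] at h1
  obtain ⟨-, a, ha, ha'⟩ := h1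
  exact ha' ha

/-- The direct sum of the rank-one uniform matroid on `A` and the dual of the rank-one uniform
matroid on `Aᶜ`. -/
def mixed (A : Set S) : Matroid S :=
  (unifOne A).disjointSum (unifOne Aᶜ)✶ (by
    rw [Matroid.dual_ground, unifOne_ground, unifOne_ground]
    exact disjoint_compl_right)

theorem mixed_ground (A : Set S) : (mixed A).E = Set.univ := by
  simp [mixed, unifOne_ground]

theorem mixed_not_finitary {A : Set S} (hB : Aᶜ.Infinite) :
    ¬ (mixed A).Finitary := by
  intro h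
  apply not_finitary_dual_unifOne hB
  refine ⟨fun I hI => ?_⟩
  have hIB : I ⊆ Aᶜ := by
    intro e he
    have := hI {e} (by simpa using he) (Set.finite_singleton e)
    rw [unifOne_dual_indep hB.nonempty] at this
    exact this.1 rfl
  have key : ∀ J : Set S, J ⊆ Aᶜ → ((mixed A).Indep J ↔ (unifOne Aᶜ)✶.Indep J) := by
    intro J hJ
    rw [mixed, Matroid.disjointSum_indep_iff]
    simp only [Matroid.dual_ground, unifOne_ground]
    have h1 : J ∩ A = ∅ := by
      ext e
      simp only [Set.mem_inter_iff, Set.mem_empty_iff_false, iff_false, not_and]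
      exact fun he => hJ he
    have h2 : J ∩ Aᶜ = J := Set.inter_eq_left.2 hJ
    rw [h1, h2]
    constructor
    · exact fun h => h.2.1
    · exact fun h => ⟨Matroid.empty_indep _, h, by simp⟩
  rw [← key I hIB]
  refine Matroid.indep_of_forall_finite_subset_indep I fun J hJ hJf => ?_
  rw [key J (hJ.trans hIB)]
  exact hI J hJ hJf

theorem mixed_dual_not_finitary {A : Set S} (hA : A.Infinite) (hB : Aᶜ.Nonempty) :
    ¬ (mixed A)✶.Finitary := by
  intro h
  -- the dual is the direct sum of the duals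
  have hd : ∀ J : Set S, J ⊆ A → ((mixed A)✶.Indep J ↔ (unifOne A)✶.Indep J) := by
    intro J hJ
    rw [unifOne_dual_indep hA.nonempty, Matroid.dual_indep_iff_exists', mixed_ground]
    constructor
    · rintro ⟨-, B, hBb, hJB⟩
      refine ⟨hJ, ?_⟩
      rw [mixed, Matroid.disjointSum_isBase_iff, unifOne_ground] at hBb
      obtain ⟨a, ha, haB⟩ := (unifOne_isBase hA.nonempty).1 hBb.1
      have haB' : a ∈ B ∩ A := by rw [haB]; rfl
      exact ⟨a, ha, fun h => Set.disjoint_left.1 hJB h haB'.1⟩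
    · rintro ⟨-, a, ha, haJ⟩
      refine ⟨Set.subset_univ _, ?_⟩
      obtain ⟨b, hb⟩ := hB
      refine ⟨{a} ∪ (Aᶜ \ {b}), ?_, ?_⟩
      · rw [mixed, Matroid.disjointSum_isBase_iff]
        simp only [Matroid.dual_ground, unifOne_ground]
        have e1 : ({a} ∪ (Aᶜ \ {b})) ∩ A = {a} := by
          ext e
          simp only [Set.mem_inter_iff, Set.mem_union, Set.mem_singleton_iff, Set.mem_sdiff,
            Set.mem_compl_iff]
          constructor
          · rintro ⟨h1 | h1, h2⟩
            · exact h1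
            · exact absurd h2 h1.1
          · rintro rfl
            exact ⟨Or.inl rfl, ha⟩
        have e2 : ({a} ∪ (Aᶜ \ {b})) ∩ Aᶜ = Aᶜ \ {b} := by
          ext e
          simp only [Set.mem_inter_iff, Set.mem_union, Set.mem_singleton_iff, Set.mem_sdiff,
            Set.mem_compl_iff]
          constructor
          · rintro ⟨h1 | h1, h2⟩
            · subst h1; exact absurd ha h2
            · exact h1
          · rintro ⟨h1, h2⟩
            exact ⟨Or.inr ⟨h1, h2⟩, h1⟩
        rw [e1, e2]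
        refine ⟨(unifOne_isBase hA.nonempty).2 ⟨a, ha, rfl⟩, ?_, by simp⟩
        have hbb : (unifOne Aᶜ).IsBase {b} := (unifOne_isBase ⟨b, hb⟩).2 ⟨b, hb, rfl⟩
        exact hbb.compl_isBase_dual
      · rw [Set.disjoint_left]
        rintro e he (rfl | he')
        · exact haJ he
        · exact he'.1 (hJ he)
  apply not_finitary_dual_unifOne hA
  refine ⟨fun I hI => ?_⟩
  have hIA : I ⊆ A := by
    intro e he
    have := hI {e} (by simpa using he) (Set.finite_singleton e)
    rw [unifOne_dual_indep hA.nonempty] at this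
    exact this.1 rfl
  rw [← hd I hIA]
  refine Matroid.indep_of_forall_finite_subset_indep I fun J hJ hJf => ?_
  rw [hd J (hJ.trans hIA)]
  exact hI J hJ hJf

theorem fam_injective {M N : Matroid S} (hE : M.E = N.E) (h : fam M = fam N) : M = N := by
  refine Matroid.ext_indep hE fun I _ => ?_
  exact Set.ext_iff.1 h I

theorem exists_infinite_infinite_compl (S : Type u) [Infinite S] :
    ∃ A : Set S, A.Infinite ∧ Aᶜ.Infinite := by
  obtain ⟨f, hf⟩ : ∃ f : ℕ → S, Function.Injective f := ⟨_, (Infinite.natEmbedding S).injective⟩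
  refine ⟨f '' {n | Even n}, ?_, ?_⟩
  · refine Set.Infinite.image hf.injOn ?_
    refine Set.infinite_of_injective_forall_mem (f := fun n : ℕ => 2 * n) ?_ ?_
    · intro a b h; simpa using h
    · intro n; exact even_two_mul n
  · have hodd : (f '' {n | Odd n}).Infinite := by
      refine Set.Infinite.image hf.injOn ?_
      refine Set.infinite_of_injective_forall_mem (f := fun n : ℕ => 2 * n + 1) ?_ ?_
      · intro a b h; simpa using h
      · intro n; exact odd_two_mul_add_one n
    refine hodd.mono ?_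
    rintro x ⟨n, hn, rfl⟩ ⟨m, hm, hmn⟩
    have : m = n := hf hmn
    subst this
    exact (Nat.not_even_iff_odd.2 hn) hm

/-- **MP_cb2a9f_co, disproof.** For every infinite set `S` there is an admissible system such that
every `D W` contains all independence spaces on `W`, and a B-matroid on `S` itself which is not
in the system. -/
theorem result (S : Type u) [Infinite S] :
    ∃ D : Set S → Set (Set (Set S)), IsAdmissible D ∧
      (∀ W I, IsIndepSpace W I → I ∈ D W) ∧
      ∃ I, IsBMatroid (Set.univ : Set S) I ∧ I ∉ D Set.univ := by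
  obtain ⟨A, hA, hB⟩ := exists_infinite_infinite_compl S
  refine ⟨system S, isAdmissible_system, fun W I h => mem_system_of_isIndepSpace h,
    fam (mixed A), ?_, ?_⟩
  · have := isBMatroid_fam (mixed A)
    rwa [mixed_ground] at this
  · rintro ⟨M, hME, hM, hfam⟩
    have hMN : mixed A = M := fam_injective (by rw [mixed_ground, hME]) hfam
    subst hMN
    rcases hM with hM | hM
    · exact mixed_not_finitary hB hM
    · exact mixed_dual_not_finitary hA hB.nonempty hM

end Pool.Agent.Results.MP_cb2a9f_co.NotAllBMatroids
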